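import Mathlib

/-!
# The combinatorial type of an arrangement of convex bodies is not locally determined

For every `m` there are two arrangements of convex bodies, any two bodies having at most four
common supporting tangents, such that all proper sub-arrangements have the same combinatorial type
although the arrangements themselves have different combinatorial types.
-/

set_option autoImplicit false

namespace Pool.Agent.Results.MP_f9fe38_co.Tower

open Real Metric

/-- The Euclidean plane. -/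
abbrev Plane := EuclideanSpace ℝ (Fin 2)

/-- The unit vector of direction `θ`. -/
noncomputable def uvec (θ : Real.Angle) : Plane := !₂[θ.cos, θ.sin]

/-- The support function of `K`. -/
noncomputable def supp (K : Set Plane) (θ : Real.Angle) : ℝ :=
  sSup ((fun p => inner ℝ p (uvec θ)) '' K)

/-- The support curve of `K` in the cylinder. -/
def curve (K : Set Plane) : Set (Real.Angle × ℝ) := {p | p.2 = supp K p.1}

/-- A homeomorphism `φ` of the cylinder preserves `+∞` (the second coordinate of `φ (θ, y)` is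
positive for all `θ` once `y` is large) and the orientation (the loop of the first coordinates of
`φ (θ, 0)` has degree one: it lifts to a map `F` of the line with `F (x + 2π) = F x + 2π`; for a
homeomorphism preserving `+∞` this means that the orientation is preserved). -/
def Admissible (φ : (Real.Angle × ℝ) ≃ₜ (Real.Angle × ℝ)) : Prop :=
  (∃ Y : ℝ, ∀ y, Y ≤ y → ∀ θ, 0 < (φ (θ, y)).2) ∧
  ∃ F : ℝ → ℝ, Continuous F ∧ (∀ x : ℝ, ((F x : ℝ) : Real.Angle) = (φ ((x : Real.Angle), 0)).1) ∧
    ∀ x, F (x + 2 * π) = F x + 2 * π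

/-- The families `A` and `B` have the same combinatorial type. -/
def SameType {ι : Type} (A B : ι → Set Plane) : Prop :=
  ∃ φ : (Real.Angle × ℝ) ≃ₜ (Real.Angle × ℝ), Admissible φ ∧
    ∀ i, φ '' curve (A i) = curve (B i)

/-- The directions of the common supporting tangents of two bodies. -/
def tangents (K L : Set Plane) : Set Real.Angle := {θ | supp K θ = supp L θ}

/-- `A` is an arrangement of bodies. -/
structure IsArrangement {ι : Type} (A : ι → Set Plane) : Prop where
  finite : Finite ι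
  nonempty : Nonempty ι
  compact : ∀ i, IsCompact (A i)
  convex : ∀ i, Convex ℝ (A i)
  body_nonempty : ∀ i, (A i).Nonempty
  transversal : ∀ i j, i ≠ j → ∀ θ ∈ tangents (A i) (A j), ∀ p ∈ A i, p ∈ A j →
    inner ℝ p (uvec θ) ≠ supp (A i) θ
  noThree : ∀ i j k, i ≠ j → j ≠ k → i ≠ k → ∀ θ,
    ¬ (θ ∈ tangents (A i) (A j) ∧ θ ∈ tangents (A j) (A k))
  tangents_finite : ∀ i j, i ≠ j → (tangents (A i) (A j)).Finite

/-- Every pair of bodies has at most `t` common supporting tangents. -/
def PairBound {ι : Type} (t : ℕ) (A : ι → Set Plane) : Prop :=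
  ∀ i j, i ≠ j → (tangents (A i) (A j)).encard ≤ t

/-- For arrangements all of whose pairs have at most `t` common supporting tangents, the
combinatorial type is determined by the types of the sub-arrangements of `m` bodies. -/
def LocallyDetermined (t m : ℕ) : Prop :=
  ∀ (L : Type) (A B : L → Set Plane), IsArrangement A → IsArrangement B →
    PairBound t A → PairBound t B →
    (∀ S : Set L, S.ncard = min m (Nat.card L) →
      SameType (fun i : S => A i) (fun i : S => B i)) → SameType A B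

/-! ## Capsules -/

/-- The set of points at distance at most `r` from the segment from `w - v` to `w + v`. -/
def capsule (w v : Plane) (r : ℝ) : Set Plane :=
  {p | ∃ t ∈ Set.Icc (-1 : ℝ) 1, ∃ b ∈ closedBall (0 : Plane) r, p = w + t • v + b}

lemma capsule_compact (w v : Plane) (r : ℝ) : IsCompact (capsule w v r) := by
  have h : capsule w v r =
      (fun q : ℝ × Plane => w + q.1 • v + q.2) '' (Set.Icc (-1 : ℝ) 1 ×ˢ closedBall (0 : Plane) r) := by
    ext p
    constructor
    · rintro ⟨t, ht, b, hb, rfl⟩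
      exact ⟨(t, b), ⟨ht, hb⟩, rfl⟩
    · rintro ⟨⟨t, b⟩, ⟨ht, hb⟩, rfl⟩
      exact ⟨t, ht, b, hb, rfl⟩
  rw [h]
  apply (isCompact_Icc.prod (isCompact_closedBall _ _)).image
  fun_prop

lemma capsule_convex (w v : Plane) (r : ℝ) : Convex ℝ (capsule w v r) := by
  rintro _ ⟨t, ht, b, hb, rfl⟩ _ ⟨t', ht', b', hb', rfl⟩ α β hα hβ hαβ
  refine ⟨α * t + β * t', ?_, α • b + β • b', ?_, ?_⟩
  · have := convex_Icc (-1 : ℝ) 1 ht ht' hα hβ hαβ
    exact this
  · exact convex_closedBall (0 : Plane) r hb hb' hα hβ hαβ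
  · have h : w = α • w + β • w := by rw [← add_smul, hαβ, one_smul]
    nth_rewrite 3 [h]
    module

lemma uvec_norm (θ : Real.Angle) : ‖uvec θ‖ = 1 := by
  have h : ‖uvec θ‖ ^ 2 = 1 := by
    rw [EuclideanSpace.norm_sq_eq, Fin.sum_univ_two]
    simp [uvec, norm_eq_abs, sq_abs]
  nlinarith [norm_nonneg (uvec θ)]

lemma capsule_greatest (w v : Plane) {r : ℝ} (hr : 0 ≤ r) (θ : Real.Angle) :
    IsGreatest ((fun p => inner ℝ p (uvec θ)) '' capsule w v r)
      (inner ℝ w (uvec θ) + |inner ℝ v (uvec θ)| + r) := by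
  have hu : inner ℝ (uvec θ) (uvec θ) = (1 : ℝ) := by
    rw [real_inner_self_eq_norm_sq, uvec_norm]; norm_num
  constructor
  · obtain ⟨t, ht, htv⟩ : ∃ t ∈ Set.Icc (-1 : ℝ) 1, t * inner ℝ v (uvec θ) = |inner ℝ v (uvec θ)| := by
      rcases le_total 0 (inner ℝ v (uvec θ)) with h | h
      · exact ⟨1, by norm_num, by rw [abs_of_nonneg h, one_mul]⟩
      · exact ⟨-1, by norm_num, by rw [abs_of_nonpos h]; ring⟩
    refine ⟨w + t • v + r • uvec θ, ⟨t, ht, r • uvec θ, ?_, rfl⟩, ?_⟩
    · rw [mem_closedBall_zero_iff, norm_smul, uvec_norm, Real.norm_of_nonneg hr, mul_one]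
    · simp only [inner_add_left, inner_smul_left, conj_trivial, hu, htv, mul_one]
  · rintro _ ⟨_, ⟨t, ht, b, hb, rfl⟩, rfl⟩
    simp only [inner_add_left, inner_smul_left, conj_trivial]
    have h1 : t * inner ℝ v (uvec θ) ≤ |inner ℝ v (uvec θ)| := by
      calc t * inner ℝ v (uvec θ) ≤ |t * inner ℝ v (uvec θ)| := le_abs_self _
        _ = |t| * |inner ℝ v (uvec θ)| := abs_mul _ _
        _ ≤ 1 * |inner ℝ v (uvec θ)| :=
            mul_le_mul_of_nonneg_right (abs_le.2 ht) (abs_nonneg _)
        _ = _ := one_mul _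
    have h2 : inner ℝ b (uvec θ) ≤ r := by
      calc inner ℝ b (uvec θ) ≤ ‖b‖ * ‖uvec θ‖ := real_inner_le_norm _ _
        _ ≤ r := by rw [uvec_norm, mul_one]; exact mem_closedBall_zero_iff.1 hb
    linarith

lemma supp_capsule (w v : Plane) {r : ℝ} (hr : 0 ≤ r) (θ : Real.Angle) :
    supp (capsule w v r) θ = inner ℝ w (uvec θ) + |inner ℝ v (uvec θ)| + r :=
  (capsule_greatest w v hr θ).csSup_eq

/-- The contact points of a capsule with its supporting line of direction `θ`. -/
lemma contact (w v : Plane) {r : ℝ} (θ : Real.Angle) {p : Plane} (hp : p ∈ capsule w v r)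
    (h : inner ℝ p (uvec θ) = inner ℝ w (uvec θ) + |inner ℝ v (uvec θ)| + r) :
    ∃ t : ℝ, p = w + t • v + r • uvec θ ∧ t * inner ℝ v (uvec θ) = |inner ℝ v (uvec θ)| := by
  obtain ⟨t, ht, b, hb, rfl⟩ := hp
  simp only [inner_add_left, inner_smul_left, conj_trivial] at h
  have hb' : ‖b‖ ≤ r := mem_closedBall_zero_iff.1 hb
  have h1 : t * inner ℝ v (uvec θ) ≤ |inner ℝ v (uvec θ)| := by
    calc t * inner ℝ v (uvec θ) ≤ |t * inner ℝ v (uvec θ)| := le_abs_self _
      _ = |t| * |inner ℝ v (uvec θ)| := abs_mul _ _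
      _ ≤ 1 * |inner ℝ v (uvec θ)| :=
          mul_le_mul_of_nonneg_right (abs_le.2 ht) (abs_nonneg _)
      _ = _ := one_mul _
  have h2 : inner ℝ b (uvec θ) ≤ ‖b‖ := by
    calc inner ℝ b (uvec θ) ≤ ‖b‖ * ‖uvec θ‖ := real_inner_le_norm _ _
      _ = ‖b‖ := by rw [uvec_norm, mul_one]
  have h3 : inner ℝ b (uvec θ) = r := by linarith
  have h4 : t * inner ℝ v (uvec θ) = |inner ℝ v (uvec θ)| := by linarith
  refine ⟨t, ?_, h4⟩
  have h5 : b = r • uvec θ := by
    have h6 : ‖b - r • uvec θ‖ ^ 2 ≤ 0 := by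
      rw [norm_sub_sq_real, inner_smul_right, h3, norm_smul, uvec_norm, mul_one, Real.norm_eq_abs,
        sq_abs]
      nlinarith [norm_nonneg b]
    have h7 : ‖b - r • uvec θ‖ = 0 := by nlinarith [norm_nonneg (b - r • uvec θ)]
    exact sub_eq_zero.1 (norm_eq_zero.1 h7)
  rw [h5]

/-! ## The bodies -/

/-- The two vectors `(√2, 0)` and `(0, √2)`. -/
noncomputable def e1 : Plane := !₂[√2, 0]
/-- The vector `(0, √2)`. -/
noncomputable def e2 : Plane := !₂[0, √2]

lemma inner_e1 (θ : Real.Angle) : inner ℝ e1 (uvec θ) = √2 * θ.cos := by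
  simp [e1, uvec, PiLp.inner_apply, Fin.sum_univ_two, mul_comm]

lemma inner_e2 (θ : Real.Angle) : inner ℝ e2 (uvec θ) = √2 * θ.sin := by
  simp [e2, uvec, PiLp.inner_apply, Fin.sum_univ_two, mul_comm]

/-- The body with index `i` in the arrangement with parameters `N` and `σ = ± 1`. -/
noncomputable def body (N : ℕ) (σ : ℝ) (i : ℕ) : Set Plane :=
  if i = 0 then capsule e2 0 0
  else if i = N + 1 then capsule (σ • e1) 0 (N + 2)
  else if i % 2 = 1 then capsule 0 e1 i else capsule 0 e2 i

/-- The support functions of the bodies. -/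
noncomputable def hf (N : ℕ) (σ : ℝ) (i : ℕ) (θ : Real.Angle) : ℝ :=
  if i = 0 then √2 * θ.sin
  else if i = N + 1 then N + 2 + σ * (√2 * θ.cos)
  else if i % 2 = 1 then i + √2 * |θ.cos| else i + √2 * |θ.sin|

lemma supp_body (N : ℕ) (σ : ℝ) (i : ℕ) (θ : Real.Angle) : supp (body N σ i) θ = hf N σ i θ := by
  unfold body hf
  split_ifs
  · rw [supp_capsule _ _ le_rfl, inner_e2]; simp
  · rw [supp_capsule _ _ (by positivity), inner_smul_left, inner_e1]
    simp only [conj_trivial, inner_zero_left, abs_zero]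
    ring
  · rw [supp_capsule _ _ (by positivity), inner_e1, abs_mul, abs_of_nonneg (Real.sqrt_nonneg 2),
      inner_zero_left]
    ring
  · rw [supp_capsule _ _ (by positivity), inner_e2, abs_mul, abs_of_nonneg (Real.sqrt_nonneg 2),
      inner_zero_left]
    ring

lemma sqrt_two_lt : √2 < 1.42 := by
  rw [Real.sqrt_lt' (by norm_num)]; norm_num

lemma lt_sqrt_two : 1.41 < √2 := by
  rw [Real.lt_sqrt (by norm_num)]; norm_num

lemma abs_cos_le (θ : Real.Angle) : |θ.cos| ≤ 1 := by
  induction θ using Real.Angle.induction_on with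
  | _ x => rw [Real.Angle.cos_coe]; exact Real.abs_cos_le_one x

lemma abs_sin_le (θ : Real.Angle) : |θ.sin| ≤ 1 := by
  induction θ using Real.Angle.induction_on with
  | _ x => rw [Real.Angle.sin_coe]; exact Real.abs_sin_le_one x

lemma hf_le {N : ℕ} (σ : ℝ) {i : ℕ} (hi : i ≤ N) (θ : Real.Angle) : hf N σ i θ ≤ i + √2 := by
  have h2 := Real.sqrt_nonneg 2
  unfold hf
  have hc : |θ.cos| ≤ 1 := abs_cos_le θ
  have hs : |θ.sin| ≤ 1 := abs_sin_le θ
  split_ifs with h0 h1 h3
  · have : √2 * θ.sin ≤ √2 * 1 := mul_le_mul_of_nonneg_left ((le_abs_self _).trans hs) h2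
    have hi0 : (0 : ℝ) ≤ i := Nat.cast_nonneg _
    linarith
  · omega
  · have := mul_le_mul_of_nonneg_left hc h2
    linarith
  · have := mul_le_mul_of_nonneg_left hs h2
    linarith

lemma hf_ge {N : ℕ} {σ : ℝ} (hσ : |σ| = 1) {i : ℕ} (hi : 1 ≤ i) (θ : Real.Angle) :
    i + 1 - √2 ≤ hf N σ i θ := by
  have h2 := Real.sqrt_nonneg 2
  have h3 := lt_sqrt_two
  unfold hf
  have hc : |θ.cos| ≤ 1 := abs_cos_le θ
  split_ifs with h0 h1 h3
  · omega
  · have h4 : |σ * (√2 * θ.cos)| ≤ √2 := by
      rw [abs_mul, hσ, one_mul, abs_mul, abs_of_nonneg h2]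
      have := mul_le_mul_of_nonneg_left hc h2
      linarith
    have h5 := (abs_le.1 h4).1
    rw [h1]
    push_cast
    linarith
  · have := mul_nonneg h2 (abs_nonneg θ.cos)
    linarith
  · have := mul_nonneg h2 (abs_nonneg θ.sin)
    linarith

lemma hf_lt {N : ℕ} {σ : ℝ} (hσ : |σ| = 1) {i j : ℕ} (hij : i + 2 ≤ j) (hj : j ≤ N + 1)
    (θ : Real.Angle) : hf N σ i θ < hf N σ j θ := by
  have h1 := hf_le (N := N) σ (show i ≤ N by omega) θ
  have h2 := hf_ge (N := N) hσ (show 1 ≤ j by omega) θ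
  have h3 := sqrt_two_lt
  have h4 : (i : ℝ) + 2 ≤ j := by exact_mod_cast hij
  linarith

/-! ## The crossings -/

lemma cos_two_iff (x : ℝ) : √2 * |cos x| = 1 + √2 * |sin x| ↔ cos (2 * x) = √3 / 2 := by
  have h2 : √2 ^ 2 = 2 := Real.sq_sqrt (by norm_num)
  have h3 : √3 ^ 2 = 3 := Real.sq_sqrt (by norm_num)
  have h20 : 0 < √2 := by positivity
  have h30 : 0 < √3 := by positivity
  have hcs : |cos x| ^ 2 + |sin x| ^ 2 = 1 := by
    rw [sq_abs, sq_abs]; exact Real.cos_sq_add_sin_sq x
  have hc2 : cos (2 * x) = |cos x| ^ 2 - |sin x| ^ 2 := by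
    rw [sq_abs, sq_abs, Real.cos_two_mul']
  have hc0 := abs_nonneg (cos x)
  have hs0 := abs_nonneg (sin x)
  rw [hc2]
  set c := |cos x|
  set s := |sin x|
  constructor
  · intro h
    have h4 : √2 * (c - s) = 1 := by linarith
    have h5 : 2 * (c - s) ^ 2 = 1 := by
      calc 2 * (c - s) ^ 2 = √2 ^ 2 * (c - s) ^ 2 := by rw [h2]
        _ = (√2 * (c - s)) ^ 2 := by ring
        _ = 1 := by rw [h4]; norm_num
    have h6 : c * s = 1 / 4 := by nlinarith
    have h7 : (c ^ 2 - s ^ 2) ^ 2 = (√3 / 2) ^ 2 := by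
      have : (c ^ 2 - s ^ 2) ^ 2 = (c ^ 2 + s ^ 2) ^ 2 - 4 * (c * s) ^ 2 := by ring
      rw [this, hcs, h6]
      nlinarith
    have h8 : 0 < c - s := by
      by_contra hcon
      have : √2 * (c - s) ≤ 0 := mul_nonpos_of_nonneg_of_nonpos h20.le (not_lt.1 hcon)
      linarith
    have h9 : 0 ≤ c ^ 2 - s ^ 2 := by nlinarith
    exact (sq_eq_sq₀ h9 (by positivity)).1 h7
  · intro h
    have h4 : (c * s) ^ 2 = (1 / 4) ^ 2 := by
      have h5 : c ^ 2 = (2 + √3) / 4 := by linarith
      have h6 : s ^ 2 = (2 - √3) / 4 := by linarith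
      rw [mul_pow, h5, h6]; nlinarith
    have h5 : c * s = 1 / 4 := (sq_eq_sq₀ (mul_nonneg hc0 hs0) (by norm_num)).1 h4
    have h6 : s < c := by nlinarith
    have h7 : (√2 * (c - s)) ^ 2 = 1 ^ 2 := by
      rw [mul_pow, h2]; nlinarith
    have h8 : √2 * (c - s) = 1 :=
      (sq_eq_sq₀ (mul_nonneg h20.le (by linarith)) (by norm_num)).1 h7
    linarith

lemma odd_iff (x : ℝ) : √2 * |cos x| = 1 + √2 * |sin x| ↔
    ∃ t : ℤ, x = t * (π / 12) ∧ (t % 12 = 1 ∨ t % 12 = 11) := by
  rw [cos_two_iff, ← Real.cos_pi_div_six, eq_comm, Real.cos_eq_cos_iff]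
  constructor
  · rintro ⟨k, h | h⟩
    · refine ⟨12 * k + 1, ?_, Or.inl (by omega)⟩
      push_cast
      linarith
    · refine ⟨12 * k - 1, ?_, Or.inr (by omega)⟩
      push_cast
      linarith
  · rintro ⟨t, rfl, h | h⟩
    · refine ⟨t / 12, Or.inl ?_⟩
      have h1 : t = 12 * (t / 12) + 1 := by omega
      have h2 : (t : ℝ) = 12 * ((t / 12 : ℤ) : ℝ) + 1 := by exact_mod_cast h1
      rw [h2]; ring
    · refine ⟨t / 12 + 1, Or.inr ?_⟩
      have h1 : t = 12 * (t / 12 + 1) - 1 := by omega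
      have h2 : (t : ℝ) = 12 * ((t / 12 + 1 : ℤ) : ℝ) - 1 := by exact_mod_cast h1
      rw [h2]; ring

lemma even_iff (x : ℝ) : √2 * |sin x| = 1 + √2 * |cos x| ↔
    ∃ t : ℤ, x = t * (π / 12) ∧ (t % 12 = 5 ∨ t % 12 = 7) := by
  have h := odd_iff (x - π / 2)
  rw [Real.cos_sub_pi_div_two, Real.sin_sub_pi_div_two, abs_neg] at h
  rw [h]
  constructor
  · rintro ⟨t, ht, h'⟩
    refine ⟨t + 6, ?_, by omega⟩
    push_cast
    linarith
  · rintro ⟨t, ht, h'⟩
    refine ⟨t - 6, ?_, by omega⟩
    push_cast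
    linarith

lemma sin_shift (t : ℤ) (j : ℤ) : sin (((24 * j + t : ℤ) : ℝ) * (π / 12)) = sin (t * (π / 12)) := by
  have : ((24 * j + t : ℤ) : ℝ) * (π / 12) = t * (π / 12) + j * (2 * π) := by push_cast; ring
  rw [this, Real.sin_add_int_mul_two_pi]

lemma bot_iff (x : ℝ) : √2 * sin x = 1 + √2 * |cos x| ↔
    ∃ t : ℤ, x = t * (π / 12) ∧ (t % 24 = 5 ∨ t % 24 = 7) := by
  have h20 : 0 < √2 := by positivity
  have hpi := Real.pi_pos
  constructor
  · intro h
    have h1 : 0 < sin x := by
      by_contra hcon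
      have h2 : √2 * sin x ≤ 0 := mul_nonpos_of_nonneg_of_nonpos h20.le (not_lt.1 hcon)
      have h3 : 0 ≤ √2 * |cos x| := by positivity
      linarith
    have h2 : √2 * |sin x| = 1 + √2 * |cos x| := by rw [abs_of_pos h1]; exact h
    obtain ⟨t, rfl, ht⟩ := (even_iff x).1 h2
    refine ⟨t, rfl, ?_⟩
    by_contra hcon
    have h3 : t % 24 = 17 ∨ t % 24 = 19 := by omega
    have h4 : (t : ℤ) = 24 * (t / 24) + t % 24 := by omega
    rw [h4, sin_shift] at h1
    have h5 : sin (((t % 24 : ℤ) : ℝ) * (π / 12)) < 0 := by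
      have h6 : ((t % 24 : ℤ) : ℝ) * (π / 12) = ((t % 24 : ℤ) - 12 : ℝ) * (π / 12) + π := by ring
      rw [h6, Real.sin_add_pi, neg_lt_zero]
      apply Real.sin_pos_of_pos_of_lt_pi
      · rcases h3 with h3 | h3 <;> rw [h3] <;> push_cast <;> linarith
      · rcases h3 with h3 | h3 <;> rw [h3] <;> push_cast <;> linarith
    linarith
  · rintro ⟨t, rfl, ht⟩
    have h1 := (even_iff (t * (π / 12))).2 ⟨t, rfl, by omega⟩
    have h2 : 0 < sin (t * (π / 12)) := by
      have h4 : (t : ℤ) = 24 * (t / 24) + t % 24 := by omega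
      rw [h4, sin_shift]
      apply Real.sin_pos_of_pos_of_lt_pi
      · rcases ht with h3 | h3 <;> rw [h3] <;> push_cast <;> linarith
      · rcases ht with h3 | h3 <;> rw [h3] <;> push_cast <;> linarith
    rwa [abs_of_pos h2] at h1

lemma top_neg_iff (x : ℝ) : √2 * |cos x| = 2 + (-1) * (√2 * cos x) ↔
    ∃ t : ℤ, x = t * (π / 12) ∧ (t % 24 = 3 ∨ t % 24 = 21) := by
  have h2 : √2 ^ 2 = 2 := Real.sq_sqrt (by norm_num)
  have h20 : 0 < √2 := by positivity
  have h1 : √2 * |cos x| = 2 + (-1) * (√2 * cos x) ↔ cos x = √2 / 2 := by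
    constructor
    · intro h
      rcases le_total 0 (cos x) with hc | hc
      · rw [abs_of_nonneg hc] at h
        have h3 : √2 * cos x = √2 * (√2 / 2) := by nlinarith
        exact mul_left_cancel₀ h20.ne' h3
      · rw [abs_of_nonpos hc] at h
        nlinarith
    · intro h
      rw [h, abs_of_pos (by positivity)]
      nlinarith
  rw [h1, ← Real.cos_pi_div_four, eq_comm, Real.cos_eq_cos_iff]
  constructor
  · rintro ⟨k, h | h⟩
    · refine ⟨24 * k + 3, ?_, Or.inl (by omega)⟩
      push_cast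
      linarith
    · refine ⟨24 * k - 3, ?_, Or.inr (by omega)⟩
      push_cast
      linarith
  · rintro ⟨t, rfl, h | h⟩
    · refine ⟨t / 24, Or.inl ?_⟩
      have h1 : t = 24 * (t / 24) + 3 := by omega
      have h2 : (t : ℝ) = 24 * ((t / 24 : ℤ) : ℝ) + 3 := by exact_mod_cast h1
      rw [h2]; ring
    · refine ⟨t / 24 + 1, Or.inr ?_⟩
      have h1 : t = 24 * (t / 24 + 1) - 3 := by omega
      have h2 : (t : ℝ) = 24 * ((t / 24 + 1 : ℤ) : ℝ) - 3 := by exact_mod_cast h1
      rw [h2]; ring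

lemma top_pos_iff (x : ℝ) : √2 * |cos x| = 2 + 1 * (√2 * cos x) ↔
    ∃ t : ℤ, x = t * (π / 12) ∧ (t % 24 = 9 ∨ t % 24 = 15) := by
  have h := top_neg_iff (x + π)
  rw [Real.cos_add_pi, abs_neg] at h
  have h' : √2 * |cos x| = 2 + 1 * (√2 * cos x) ↔ √2 * |cos x| = 2 + -1 * (√2 * -cos x) := by
    constructor <;> intro h1 <;> linarith
  rw [h', h]
  constructor
  · rintro ⟨t, ht, h'⟩
    refine ⟨t - 12, ?_, by omega⟩
    push_cast
    linarith
  · rintro ⟨t, ht, h'⟩
    refine ⟨t + 12, ?_, by omega⟩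
    push_cast
    linarith

/-- The residues modulo 24 of the crossings of the curves `i` and `i + 1`, in units of `π / 12`. -/
def R (N : ℕ) (top : Finset ℤ) (i : ℕ) : Finset ℤ :=
  if i = 0 then {5, 7} else if i = N then top else if i % 2 = 1 then {1, 11, 13, 23}
  else {5, 7, 17, 19}

/-- The residues of the crossings of the last two curves. -/
def TopRes (σ : ℝ) (top : Finset ℤ) : Prop :=
  (σ = -1 ∧ top = {3, 21}) ∨ (σ = 1 ∧ top = {9, 15})

lemma cross_iff {N : ℕ} (hN : N % 2 = 1) {σ : ℝ} {top : Finset ℤ} (hσ : TopRes σ top) {i : ℕ}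
    (hi : i ≤ N) (x : ℝ) :
    hf N σ i (x : Real.Angle) = hf N σ (i + 1) (x : Real.Angle) ↔
      ∃ t : ℤ, x = t * (π / 12) ∧ t % 24 ∈ R N top i := by
  unfold hf R
  simp only [Real.Angle.cos_coe, Real.Angle.sin_coe]
  by_cases h0 : i = 0
  · subst h0
    have h1 : ¬ (0 + 1 = N + 1) ∨ N = 0 := by omega
    have hN0 : N ≠ 0 := by omega
    have h2 : ¬ (0 + 1 = N + 1) := by omega
    rw [if_pos rfl, if_neg (by omega), if_neg h2, if_pos (by omega), if_pos rfl]
    have h3 := bot_iff x
    rw [show (((0 + 1 : ℕ) : ℝ)) = 1 by norm_num, h3]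
    simp
  · by_cases h1 : i = N
    · subst h1
      rw [if_neg h0, if_neg (by omega), if_pos hN, if_neg (by omega), if_pos rfl, if_neg h0,
        if_pos rfl]
      rcases hσ with ⟨rfl, rfl⟩ | ⟨rfl, rfl⟩
      · rw [show (∃ t : ℤ, x = t * (π / 12) ∧ t % 24 ∈ ({3, 21} : Finset ℤ)) ↔
          (∃ t : ℤ, x = t * (π / 12) ∧ (t % 24 = 3 ∨ t % 24 = 21)) by simp, ← top_neg_iff]
        constructor <;> intro h <;> linarith
      · rw [show (∃ t : ℤ, x = t * (π / 12) ∧ t % 24 ∈ ({9, 15} : Finset ℤ)) ↔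
          (∃ t : ℤ, x = t * (π / 12) ∧ (t % 24 = 9 ∨ t % 24 = 15)) by simp, ← top_pos_iff]
        constructor <;> intro h <;> linarith
    · by_cases h2 : i % 2 = 1
      · rw [if_neg h0, if_neg (by omega), if_pos h2, if_neg (by omega), if_neg (by omega),
          if_neg (by omega), if_neg h0, if_neg h1, if_pos h2]
        have h3 : (∃ t : ℤ, x = t * (π / 12) ∧ t % 24 ∈ ({1, 11, 13, 23} : Finset ℤ)) ↔
            (∃ t : ℤ, x = t * (π / 12) ∧ (t % 12 = 1 ∨ t % 12 = 11)) := by
          apply exists_congr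
          intro t
          apply and_congr_right
          intro _
          simp only [Finset.mem_insert, Finset.mem_singleton]
          omega
        rw [h3, ← odd_iff]
        push_cast
        constructor <;> intro h <;> linarith
      · rw [if_neg h0, if_neg (by omega), if_neg h2, if_neg (by omega), if_neg (by omega),
          if_pos (by omega), if_neg h0, if_neg h1, if_neg h2]
        have h3 : (∃ t : ℤ, x = t * (π / 12) ∧ t % 24 ∈ ({5, 7, 17, 19} : Finset ℤ)) ↔
            (∃ t : ℤ, x = t * (π / 12) ∧ (t % 12 = 5 ∨ t % 12 = 7)) := by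
          apply exists_congr
          intro t
          apply and_congr_right
          intro _
          simp only [Finset.mem_insert, Finset.mem_singleton]
          omega
        rw [h3, ← even_iff]
        push_cast
        constructor <;> intro h <;> linarith

/-! ## The combinatorial core -/

lemma core {N : ℕ} (hN : N % 2 = 1) (hN3 : 3 ≤ N) (G : ℕ → ℝ → ℝ)
    (hG : ∀ i, i ≤ N + 1 → StrictMono (G i)) (hper : ∀ i, i ≤ N + 1 → ∀ x, G i (x + 24) = G i x + 24)
    (hcr : ∀ i, i ≤ N → ∀ t : ℤ, t % 24 ∈ R N {3, 21} i →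
      ∃ u : ℤ, G i t = u ∧ G (i + 1) t = u ∧ u % 24 ∈ R N {9, 15} i) : False := by
  -- the first curve
  have hlt : ∀ {i : ℕ}, i ≤ N + 1 → ∀ {a b u v : ℤ}, a < b → G i a = u → G i b = v → u < v := by
    intro i hi a b u v hab hu hv
    have h1 := hG i hi (show (a : ℝ) < b by exact_mod_cast hab)
    rw [hu, hv] at h1
    exact_mod_cast h1
  have base : ∀ s : ℤ, s % 24 = 5 → ∃ K : ℤ, G 1 s = ((s + 24 * K : ℤ) : ℝ) ∧
      G 1 ((s + 6 : ℤ) : ℝ) = ((s + 6 + 24 * K : ℤ) : ℝ) ∧
      G 1 ((s + 8 : ℤ) : ℝ) = ((s + 8 + 24 * K : ℤ) : ℝ) ∧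
      G 1 ((s + 18 : ℤ) : ℝ) = ((s + 18 + 24 * K : ℤ) : ℝ) ∧
      G 1 ((s + 20 : ℤ) : ℝ) = ((s + 20 + 24 * K : ℤ) : ℝ) := by
    intro s hs
    have hR0 : ∀ t : ℤ, (t % 24 = 5 ∨ t % 24 = 7) →
        ∃ u : ℤ, G 1 t = u ∧ (u % 24 = 5 ∨ u % 24 = 7) := by
      intro t ht
      obtain ⟨u, -, h2, h3⟩ := hcr 0 (by omega) t (by simp [R]; exact ht)
      refine ⟨u, h2, ?_⟩
      simpa [R] using h3
    have hR1 : ∀ t : ℤ, (t % 12 = 1 ∨ t % 12 = 11) →
        ∃ u : ℤ, G 1 t = u ∧ (u % 12 = 1 ∨ u % 12 = 11) := by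
      intro t ht
      have hN1 : (1 : ℕ) ≠ N := by omega
      obtain ⟨u, h2, -, h3⟩ := hcr 1 (by omega) t (by simp [R, hN1]; omega)
      refine ⟨u, h2, ?_⟩
      simp [R, hN1] at h3
      omega
    obtain ⟨u0, hu0, hu0'⟩ := hR0 s (by omega)
    obtain ⟨u1, hu1, hu1'⟩ := hR0 (s + 2) (by omega)
    obtain ⟨u2, hu2, hu2'⟩ := hR1 (s + 6) (by omega)
    obtain ⟨u3, hu3, hu3'⟩ := hR1 (s + 8) (by omega)
    obtain ⟨u4, hu4, hu4'⟩ := hR1 (s + 18) (by omega)
    obtain ⟨u5, hu5, hu5'⟩ := hR1 (s + 20) (by omega)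
    have hu6 : G 1 ((s + 24 : ℤ) : ℝ) = ((u0 + 24 : ℤ) : ℝ) := by
      have := hper 1 (by omega) s
      rw [hu0] at this
      push_cast
      exact this
    have l1 := hlt (show 1 ≤ N + 1 by omega) (by omega : s < s + 2) hu0 hu1
    have l2 := hlt (show 1 ≤ N + 1 by omega) (by omega : s + 2 < s + 6) hu1 hu2
    have l3 := hlt (show 1 ≤ N + 1 by omega) (by omega : s + 6 < s + 8) hu2 hu3
    have l4 := hlt (show 1 ≤ N + 1 by omega) (by omega : s + 8 < s + 18) hu3 hu4
    have l5 := hlt (show 1 ≤ N + 1 by omega) (by omega : s + 18 < s + 20) hu4 hu5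
    have l6 := hlt (show 1 ≤ N + 1 by omega) (by omega : s + 20 < s + 24) hu5 hu6
    have hu0'' : u0 % 24 = 5 := by omega
    refine ⟨(u0 - s) / 24, ?_, ?_, ?_, ?_, ?_⟩
    · rw [hu0]; congr 1; omega
    · rw [hu2]; congr 1; omega
    · rw [hu3]; congr 1; omega
    · rw [hu4]; congr 1; omega
    · rw [hu5]; congr 1; omega
  obtain ⟨K, hK5, -⟩ := base 5 (by norm_num)
  have hperZ : ∀ j : ℤ, G 1 ((5 + 24 * j : ℤ) : ℝ) = ((5 + 24 * j + 24 * K : ℤ) : ℝ) := by
    intro j
    induction j using Int.induction_on with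
    | zero => simpa using hK5
    | succ j ih =>
      have h1 := hper 1 (by omega) ((5 + 24 * (j : ℤ) : ℤ) : ℝ)
      rw [ih] at h1
      have h2 : ((5 + 24 * ((j : ℤ) + 1) : ℤ) : ℝ) = ((5 + 24 * (j : ℤ) : ℤ) : ℝ) + 24 := by
        push_cast; ring
      rw [h2, h1]; push_cast; ring
    | pred j ih =>
      have h1 := hper 1 (by omega) ((5 + 24 * (-(j : ℤ) - 1) : ℤ) : ℝ)
      have h2 : ((5 + 24 * (-(j : ℤ) - 1) : ℤ) : ℝ) + 24 = ((5 + 24 * (-(j : ℤ)) : ℤ) : ℝ) := by
        push_cast; ring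
      rw [h2, ih] at h1
      have h3 : G 1 ((5 + 24 * (-(j : ℤ) - 1) : ℤ) : ℝ) =
        ((5 + 24 * (-(j : ℤ)) + 24 * K : ℤ) : ℝ) - 24 := by linarith
      rw [h3]; push_cast; ring
  have claim : ∀ i, 1 ≤ i → i < N → ∀ t : ℤ, t % 24 ∈ R N {3, 21} i →
      G i t = ((t + 24 * K : ℤ) : ℝ) := by
    intro i hi
    induction i, hi using Nat.le_induction with
    | base =>
      intro _ t ht
      have hN1 : (1 : ℕ) ≠ N := by omega
      have ht' : t % 24 = 11 ∨ t % 24 = 13 ∨ t % 24 = 23 ∨ t % 24 = 1 := by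
        simp [R, hN1] at ht
        omega
      have key : ∀ s : ℤ, s % 24 = 5 → ∀ K' : ℤ, G 1 s = ((s + 24 * K' : ℤ) : ℝ) → K' = K := by
        intro s hs K' hK'
        have h1 := hperZ (s / 24)
        have h2 : (5 + 24 * (s / 24) : ℤ) = s := by omega
        rw [h2, hK'] at h1
        have h3 : s + 24 * K' = s + 24 * K := by exact_mod_cast h1
        omega
      rcases ht' with h | h | h | h
      · obtain ⟨K', h0, h1, -⟩ := base (t - 6) (by omega)
        rw [key _ (by omega) K' h0, show t - 6 + 6 = t by ring] at h1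
        exact h1
      · obtain ⟨K', h0, -, h1, -⟩ := base (t - 8) (by omega)
        rw [key _ (by omega) K' h0, show t - 8 + 8 = t by ring] at h1
        exact h1
      · obtain ⟨K', h0, -, -, h1, -⟩ := base (t - 18) (by omega)
        rw [key _ (by omega) K' h0, show t - 18 + 18 = t by ring] at h1
        exact h1
      · obtain ⟨K', h0, -, -, -, h1⟩ := base (t - 20) (by omega)
        rw [key _ (by omega) K' h0, show t - 20 + 20 = t by ring] at h1
        exact h1
    | succ i hi ih =>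
      intro hiN t ht
      have ih' := ih (by omega)
      have hi0 : i ≠ 0 := by omega
      have hiN' : i ≠ N := by omega
      have hi1 : i + 1 ≠ N := by omega
      -- the lower neighbours are fixed by `G (i + 1)` as well
      have hlow : ∀ s : ℤ, s % 24 ∈ R N {3, 21} i → G (i + 1) s = ((s + 24 * K : ℤ) : ℝ) := by
        intro s hs
        obtain ⟨u, hu1, hu2, -⟩ := hcr i (by omega) s hs
        rw [hu2, ← hu1, ih' s hs]
      have hup : ∀ s : ℤ, s % 24 ∈ R N {3, 21} (i + 1) →
          ∃ u : ℤ, G (i + 1) s = u ∧ u % 24 ∈ R N {9, 15} (i + 1) := by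
        intro s hs
        obtain ⟨u, hu1, -, hu3⟩ := hcr (i + 1) (by omega) s hs
        exact ⟨u, hu1, hu3⟩
      by_cases hpar : i % 2 = 1
      · have hpar' : ¬ (i + 1) % 2 = 1 := by omega
        simp only [R, hi0, hiN', hi1, hpar, hpar', if_false, if_true, Finset.mem_insert,
          Finset.mem_singleton, add_eq_zero, one_ne_zero, and_false] at hlow hup ht
        have ht' : t % 12 = 5 ∨ t % 12 = 7 := by omega
        rcases ht' with h | h
        · have a1 := hlow (t - 4) (by omega)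
          obtain ⟨u, hu, hu'⟩ := hup t (by omega)
          obtain ⟨v, hv, hv'⟩ := hup (t + 2) (by omega)
          have a2 := hlow (t + 6) (by omega)
          have l1 := hlt (show i + 1 ≤ N + 1 by omega) (by omega : t - 4 < t) a1 hu
          have l2 := hlt (show i + 1 ≤ N + 1 by omega) (by omega : t < t + 2) hu hv
          have l3 := hlt (show i + 1 ≤ N + 1 by omega) (by omega : t + 2 < t + 6) hv a2
          rw [hu]; congr 1; omega
        · have a1 := hlow (t - 6) (by omega)
          obtain ⟨u, hu, hu'⟩ := hup t (by omega)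
          obtain ⟨v, hv, hv'⟩ := hup (t - 2) (by omega)
          have a2 := hlow (t + 4) (by omega)
          have l1 := hlt (show i + 1 ≤ N + 1 by omega) (by omega : t - 6 < t - 2) a1 hv
          have l2 := hlt (show i + 1 ≤ N + 1 by omega) (by omega : t - 2 < t) hv hu
          have l3 := hlt (show i + 1 ≤ N + 1 by omega) (by omega : t < t + 4) hu a2
          rw [hu]; congr 1; omega
      · have hpar' : (i + 1) % 2 = 1 := by omega
        simp only [R, hi0, hiN', hi1, hpar, hpar', if_false, if_true, Finset.mem_insert,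
          Finset.mem_singleton, add_eq_zero, one_ne_zero, and_false] at hlow hup ht
        have ht' : t % 12 = 11 ∨ t % 12 = 1 := by omega
        rcases ht' with h | h
        · have a1 := hlow (t - 4) (by omega)
          obtain ⟨u, hu, hu'⟩ := hup t (by omega)
          obtain ⟨v, hv, hv'⟩ := hup (t + 2) (by omega)
          have a2 := hlow (t + 6) (by omega)
          have l1 := hlt (show i + 1 ≤ N + 1 by omega) (by omega : t - 4 < t) a1 hu
          have l2 := hlt (show i + 1 ≤ N + 1 by omega) (by omega : t < t + 2) hu hv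
          have l3 := hlt (show i + 1 ≤ N + 1 by omega) (by omega : t + 2 < t + 6) hv a2
          rw [hu]; congr 1; omega
        · have a1 := hlow (t - 6) (by omega)
          obtain ⟨u, hu, hu'⟩ := hup t (by omega)
          obtain ⟨v, hv, hv'⟩ := hup (t - 2) (by omega)
          have a2 := hlow (t + 4) (by omega)
          have l1 := hlt (show i + 1 ≤ N + 1 by omega) (by omega : t - 6 < t - 2) a1 hv
          have l2 := hlt (show i + 1 ≤ N + 1 by omega) (by omega : t - 2 < t) hv hu
          have l3 := hlt (show i + 1 ≤ N + 1 by omega) (by omega : t < t + 4) hu a2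
          rw [hu]; congr 1; omega
  -- the last curve
  obtain ⟨M, rfl⟩ : ∃ M, N = M + 1 := ⟨N - 1, by omega⟩
  have hM0 : M ≠ 0 := by omega
  have hM1 : M ≠ M + 1 := by omega
  have hMp : ¬ M % 2 = 1 := by omega
  have hfix : ∀ s : ℤ, s % 24 ∈ R (M + 1) {3, 21} M → G (M + 1) s = ((s + 24 * K : ℤ) : ℝ) := by
    intro s hs
    obtain ⟨u, hu1, hu2, -⟩ := hcr M (by omega) s hs
    rw [hu2, ← hu1, claim M (by omega) (by omega) s hs]
  simp only [R, hM0, hM1, hMp, if_false, Finset.mem_insert, Finset.mem_singleton] at hfix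
  have a1 := hfix (-5) (by norm_num)
  have a2 := hfix 5 (by norm_num)
  obtain ⟨u, hu, -, hu'⟩ := hcr (M + 1) le_rfl 3 (by simp [R])
  simp only [R, add_eq_zero, one_ne_zero, and_false, if_false, if_true,
    Finset.mem_insert, Finset.mem_singleton] at hu'
  have l1 := hlt (show M + 1 ≤ M + 1 + 1 by omega) (by norm_num : (-5 : ℤ) < 3) a1 hu
  have l2 := hlt (show M + 1 ≤ M + 1 + 1 by omega) (by norm_num : (3 : ℤ) < 5) hu a2
  omega

/-! ## The arrangements -/

/-- The arrangement with parameter `σ = ± 1`. -/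
noncomputable def arr (N : ℕ) (σ : ℝ) (i : Fin (N + 2)) : Set Plane := body N σ i

lemma body_compact (N : ℕ) (σ : ℝ) (i : ℕ) : IsCompact (body N σ i) := by
  unfold body; split_ifs <;> exact capsule_compact _ _ _

lemma body_convex (N : ℕ) (σ : ℝ) (i : ℕ) : Convex ℝ (body N σ i) := by
  unfold body; split_ifs <;> exact capsule_convex _ _ _

lemma capsule_nonempty (w v : Plane) {r : ℝ} (hr : 0 ≤ r) : (capsule w v r).Nonempty :=
  ⟨w, 0, by norm_num, 0, by simpa using hr, by simp⟩

lemma body_nonempty (N : ℕ) (σ : ℝ) (i : ℕ) : (body N σ i).Nonempty := by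
  unfold body
  split_ifs
  · exact capsule_nonempty _ _ le_rfl
  · exact capsule_nonempty _ _ (by positivity)
  · exact capsule_nonempty _ _ (by positivity)
  · exact capsule_nonempty _ _ (by positivity)

lemma mem_tangents {N : ℕ} {σ : ℝ} {i j : ℕ} {θ : Real.Angle} :
    θ ∈ tangents (body N σ i) (body N σ j) ↔ hf N σ i θ = hf N σ j θ := by
  unfold tangents
  rw [Set.mem_ofPred_eq, supp_body, supp_body]

lemma tangents_far {N : ℕ} {σ : ℝ} (hσ : |σ| = 1) {i j : ℕ} (hij : i + 2 ≤ j) (hj : j ≤ N + 1) :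
    tangents (body N σ i) (body N σ j) = ∅ := by
  ext θ
  rw [mem_tangents]
  simp only [Set.mem_empty_iff_false, iff_false]
  exact (hf_lt hσ hij hj θ).ne

lemma tangents_comm (K L : Set Plane) : tangents K L = tangents L K := by
  ext θ; exact eq_comm

lemma topRes_abs {σ : ℝ} {top : Finset ℤ} (hσ : TopRes σ top) : |σ| = 1 := by
  rcases hσ with ⟨rfl, -⟩ | ⟨rfl, -⟩ <;> norm_num

lemma R_card {N : ℕ} {σ : ℝ} {top : Finset ℤ} (hσ : TopRes σ top) (i : ℕ) : (R N top i).card ≤ 4 := by
  unfold R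
  split_ifs
  · decide
  · rcases hσ with ⟨-, rfl⟩ | ⟨-, rfl⟩ <;> decide
  · decide
  · decide

lemma tangents_adj {N : ℕ} (hN : N % 2 = 1) {σ : ℝ} {top : Finset ℤ} (hσ : TopRes σ top) {i : ℕ}
    (hi : i ≤ N) : tangents (body N σ i) (body N σ (i + 1)) ⊆
      (fun r : ℤ => (((r : ℝ) * (π / 12) : ℝ) : Real.Angle)) '' (R N top i : Set ℤ) := by
  intro θ hθ
  rw [mem_tangents] at hθ
  induction θ using Real.Angle.induction_on with
  | _ x =>
    obtain ⟨t, rfl, ht⟩ := (cross_iff hN hσ hi x).1 hθ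
    refine ⟨t % 24, ht, ?_⟩
    rw [Real.Angle.angle_eq_iff_two_pi_dvd_sub]
    refine ⟨-(t / 24), ?_⟩
    have h1 : t = 24 * (t / 24) + t % 24 := by omega
    have h2 : (t : ℝ) = 24 * ((t / 24 : ℤ) : ℝ) + ((t % 24 : ℤ) : ℝ) := by exact_mod_cast h1
    rw [show ((t % 24 : ℤ) : ℝ) = t - 24 * ((t / 24 : ℤ) : ℝ) by linarith]
    push_cast
    ring

lemma tangents_encard {N : ℕ} (hN : N % 2 = 1) {σ : ℝ} {top : Finset ℤ} (hσ : TopRes σ top)
    {i j : ℕ} (hij : i ≠ j) (hi : i ≤ N + 1) (hj : j ≤ N + 1) :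
    (tangents (body N σ i) (body N σ j)).encard ≤ (4 : ℕ) := by
  have hadj : ∀ k, k ≤ N → (tangents (body N σ k) (body N σ (k + 1))).encard ≤ (4 : ℕ) := by
    intro k hk
    refine (Set.encard_le_encard (tangents_adj hN hσ hk)).trans ?_
    refine (Set.encard_image_le _ _).trans ?_
    rw [Set.encard_coe_eq_coe_finsetCard]
    exact_mod_cast R_card hσ k
  have hlt : ∀ i j : ℕ, i < j → j ≤ N + 1 →
      (tangents (body N σ i) (body N σ j)).encard ≤ (4 : ℕ) := by
    intro i j hij hj
    by_cases h : j = i + 1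
    · subst h
      exact hadj i (by omega)
    · rw [tangents_far (topRes_abs hσ) (by omega) hj]
      simp
  rcases lt_or_gt_of_ne hij with h | h
  · exact hlt i j h hj
  · rw [tangents_comm]
    exact hlt j i h hi

lemma tangents_finite {N : ℕ} (hN : N % 2 = 1) {σ : ℝ} {top : Finset ℤ} (hσ : TopRes σ top)
    {i j : ℕ} (hij : i ≠ j) (hi : i ≤ N + 1) (hj : j ≤ N + 1) :
    (tangents (body N σ i) (body N σ j)).Finite :=
  Set.finite_of_encard_le_coe (tangents_encard hN hσ hij hi hj)

lemma cs_one (θ : Real.Angle) : θ.cos ^ 2 + θ.sin ^ 2 = 1 := Real.Angle.cos_sq_add_sin_sq θ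

/-- Common points of neighbouring bodies do not lie on common supporting tangents. -/
lemma no_contact {N : ℕ} (hN : N % 2 = 1) {σ : ℝ} (hσ : |σ| = 1) {i : ℕ} (hi : i ≤ N)
    {θ : Real.Angle} {p : Plane} (hp : p ∈ body N σ i) (hp' : p ∈ body N σ (i + 1))
    (h1 : inner ℝ p (uvec θ) = supp (body N σ i) θ)
    (h2 : inner ℝ p (uvec θ) = supp (body N σ (i + 1)) θ) : False := by
  have hs2 : √2 ^ 2 = 2 := Real.sq_sqrt (by norm_num)
  have hs0 : 0 < √2 := by positivity
  have hsl := lt_sqrt_two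
  have hsu := sqrt_two_lt
  have hcs := cs_one θ
  have hcon : ∀ (w v : Plane) (r : ℝ), 0 ≤ r → p ∈ capsule w v r →
      inner ℝ p (uvec θ) = supp (capsule w v r) θ →
      ∃ t : ℝ, p = w + t • v + r • uvec θ ∧ t * inner ℝ v (uvec θ) = |inner ℝ v (uvec θ)| := by
    intro w v r hr hp h
    rw [supp_capsule w v hr] at h
    exact contact w v θ hp h
  by_cases h0 : i = 0
  · subst h0
    have hb0 : body N σ 0 = capsule e2 0 0 := by simp [body]
    have hb1 : body N σ (0 + 1) = capsule 0 e1 1 := by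
      have : N ≠ 0 := by omega
      simp [body, this]
    rw [hb0] at hp h1
    rw [hb1] at hp' h2
    obtain ⟨t, ht, -⟩ := hcon _ _ _ le_rfl hp h1
    obtain ⟨t', ht', -⟩ := hcon _ _ _ zero_le_one hp' h2
    have h3 : p 1 = √2 := by rw [ht]; simp [e2]
    have h4 : p 1 = θ.sin := by rw [ht']; simp [e1, uvec]
    have := abs_sin_le θ
    rw [abs_le] at this
    linarith
  · by_cases hiN : i = N
    · subst hiN
      have hb0 : body i σ i = capsule 0 e1 i := by simp [body, h0, hN]
      have hb1 : body i σ (i + 1) = capsule (σ • e1) 0 (i + 2) := by simp [body]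
      rw [hb0] at hp h1
      rw [hb1] at hp' h2
      obtain ⟨t, ht, ht2⟩ := hcon _ _ _ (by positivity) hp h1
      obtain ⟨t', ht', -⟩ := hcon _ _ _ (by positivity) hp' h2
      rw [inner_e1] at ht2
      have h3 : t * √2 + i * θ.cos = σ * √2 + (i + 2) * θ.cos := by
        have a : p 0 = t * √2 + i * θ.cos := by rw [ht]; simp [e1, uvec]
        have b : p 0 = σ * √2 + (i + 2) * θ.cos := by rw [ht']; simp [e1, uvec]
        rw [← a, b]
      have h4 : i * θ.sin = (i + 2) * θ.sin := by
        have a : p 1 = i * θ.sin := by rw [ht]; simp [e1, uvec]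
        have b : p 1 = (i + 2) * θ.sin := by rw [ht']; simp [e1, uvec]
        rw [← a, b]
      have h5 : θ.sin = 0 := by linarith
      rw [h5] at hcs
      have hσ2 : σ ^ 2 = 1 := by rw [← sq_abs, hσ]; norm_num
      have h6 : |θ.cos| = 1 := by
        have : |θ.cos| ^ 2 = 1 := by rw [sq_abs]; linarith
        nlinarith [abs_nonneg θ.cos]
      rw [abs_mul, abs_of_pos hs0, h6, mul_one] at ht2
      have h7 : t * θ.cos = 1 := by
        have : √2 * (t * θ.cos) = √2 * 1 := by linarith
        exact mul_left_cancel₀ hs0.ne' this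
      have h8 : t = θ.cos := by
        have hc2 : θ.cos ^ 2 = 1 := by linarith
        calc t = t * θ.cos ^ 2 := by rw [hc2, mul_one]
          _ = (t * θ.cos) * θ.cos := by ring
          _ = θ.cos := by rw [h7, one_mul]
      rw [h8] at h3
      have h9 : σ * √2 = (√2 - 2) * θ.cos := by linarith
      have h10 : (σ * √2) ^ 2 = ((√2 - 2) * θ.cos) ^ 2 := by rw [h9]
      rw [mul_pow, mul_pow, hσ2, hs2, show θ.cos ^ 2 = 1 by linarith] at h10
      nlinarith
    · by_cases hpar : i % 2 = 1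
      · have hb0 : body N σ i = capsule 0 e1 i := by
          unfold body
          rw [if_neg h0, if_neg (by omega), if_pos hpar]
        have hb1 : body N σ (i + 1) = capsule 0 e2 ((i + 1 : ℕ) : ℝ) := by
          unfold body
          rw [if_neg (by omega), if_neg (by omega), if_neg (by omega)]
        rw [hb0] at hp h1
        rw [hb1] at hp' h2
        obtain ⟨t, ht, ht2⟩ := hcon _ _ _ (by positivity) hp h1
        obtain ⟨t', ht', ht2'⟩ := hcon _ _ _ (by positivity) hp' h2
        rw [inner_e1] at ht2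
        rw [inner_e2] at ht2'
        have h3 : θ.cos = t * √2 := by
          have a : p 0 = t * √2 + i * θ.cos := by rw [ht]; simp [e1, uvec]
          have b : p 0 = (i + 1) * θ.cos := by rw [ht']; simp [e2, uvec]
          linarith
        have h4 : θ.sin = - (t' * √2) := by
          have a : p 1 = i * θ.sin := by rw [ht]; simp [e1, uvec]
          have b : p 1 = t' * √2 + (i + 1) * θ.sin := by rw [ht']; simp [e2, uvec]
          linarith
        have h5 : t' = 0 := by
          have : t' * (√2 * θ.sin) = - 2 * t' ^ 2 := by rw [h4]; linear_combination (-t' ^ 2) * hs2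
          rw [this] at ht2'
          have := abs_nonneg (√2 * θ.sin)
          nlinarith
        have h6 : θ.sin = 0 := by rw [h4, h5]; simp
        rw [h6, h3] at hcs
        have h7 : t ^ 2 = 1 / 2 := by nlinarith
        have h8 : t * (√2 * θ.cos) = 1 := by rw [h3]; linear_combination t ^ 2 * hs2 + 2 * h7
        rw [h8, h3] at ht2
        have h9 : |√2 * (t * √2)| ^ 2 = 1 := by rw [← ht2]; norm_num
        rw [sq_abs] at h9
        have h10 : (√2 * (t * √2)) ^ 2 = 4 * t ^ 2 := by
          have : (√2 * (t * √2)) ^ 2 = (√2 ^ 2) ^ 2 * t ^ 2 := by ring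
          rw [this, hs2]; ring
        rw [h10, h7] at h9
        norm_num at h9
      · have hb0 : body N σ i = capsule 0 e2 i := by
          unfold body
          rw [if_neg h0, if_neg (by omega), if_neg hpar]
        have hb1 : body N σ (i + 1) = capsule 0 e1 ((i + 1 : ℕ) : ℝ) := by
          unfold body
          rw [if_neg (by omega), if_neg (by omega), if_pos (by omega)]
        rw [hb0] at hp h1
        rw [hb1] at hp' h2
        obtain ⟨t, ht, ht2⟩ := hcon _ _ _ (by positivity) hp h1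
        obtain ⟨t', ht', ht2'⟩ := hcon _ _ _ (by positivity) hp' h2
        rw [inner_e2] at ht2
        rw [inner_e1] at ht2'
        have h3 : θ.sin = t * √2 := by
          have a : p 1 = t * √2 + i * θ.sin := by rw [ht]; simp [e2, uvec]
          have b : p 1 = (i + 1) * θ.sin := by rw [ht']; simp [e1, uvec]
          linarith
        have h4 : θ.cos = - (t' * √2) := by
          have a : p 0 = i * θ.cos := by rw [ht]; simp [e2, uvec]
          have b : p 0 = t' * √2 + (i + 1) * θ.cos := by rw [ht']; simp [e1, uvec]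
          linarith
        have h5 : t' = 0 := by
          have : t' * (√2 * θ.cos) = - 2 * t' ^ 2 := by rw [h4]; linear_combination (-t' ^ 2) * hs2
          rw [this] at ht2'
          have := abs_nonneg (√2 * θ.cos)
          nlinarith
        have h6 : θ.cos = 0 := by rw [h4, h5]; simp
        rw [h6, h3] at hcs
        have h7 : t ^ 2 = 1 / 2 := by nlinarith
        have h8 : t * (√2 * θ.sin) = 1 := by rw [h3]; linear_combination t ^ 2 * hs2 + 2 * h7
        rw [h8, h3] at ht2
        have h9 : |√2 * (t * √2)| ^ 2 = 1 := by rw [← ht2]; norm_num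
        rw [sq_abs] at h9
        have h10 : (√2 * (t * √2)) ^ 2 = 4 * t ^ 2 := by
          have : (√2 * (t * √2)) ^ 2 = (√2 ^ 2) ^ 2 * t ^ 2 := by ring
          rw [this, hs2]; ring
        rw [h10, h7] at h9
        norm_num at h9

lemma arr_isArrangement {N : ℕ} (hN : N % 2 = 1) {σ : ℝ} {top : Finset ℤ} (hσ : TopRes σ top) :
    IsArrangement (arr N σ) where
  finite := inferInstance
  nonempty := inferInstance
  compact := fun i => body_compact N σ i
  convex := fun i => body_convex N σ i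
  body_nonempty := fun i => body_nonempty N σ i
  transversal := by
    intro i j hij θ hθ p hp hp' h
    have hσ1 := topRes_abs hσ
    have hne : (i : ℕ) ≠ j := fun hc => hij (Fin.ext hc)
    have hi2 := i.isLt
    have hj2 := j.isLt
    have h' : inner ℝ p (uvec θ) = supp (arr N σ j) θ := h.trans hθ
    unfold arr at hθ hp hp' h h'
    rcases lt_or_gt_of_ne hne with hlt | hlt
    · by_cases hadj : (j : ℕ) = i + 1
      · rw [hadj] at hp' h'
        exact no_contact hN hσ1 (by omega) hp hp' h h'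
      · rw [tangents_far hσ1 (by omega) (by omega)] at hθ
        exact hθ
    · by_cases hadj : (i : ℕ) = j + 1
      · rw [hadj] at hp h
        exact no_contact hN hσ1 (by omega) hp' hp h' h
      · rw [tangents_comm, tangents_far hσ1 (by omega) (by omega)] at hθ
        exact hθ
  noThree := by
    rintro i j k hij hjk hik θ ⟨h1, h2⟩
    have hσ1 := topRes_abs hσ
    have hne1 : (i : ℕ) ≠ j := fun hc => hij (Fin.ext hc)
    have hne2 : (j : ℕ) ≠ k := fun hc => hjk (Fin.ext hc)
    have hne3 : (i : ℕ) ≠ k := fun hc => hik (Fin.ext hc)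
    have hi2 := i.isLt
    have hj2 := j.isLt
    have hk2 := k.isLt
    unfold arr at h1 h2
    rw [mem_tangents] at h1 h2
    have key : ∀ a b : ℕ, a + 2 ≤ b → b ≤ N + 1 → hf N σ a θ ≠ hf N σ b θ :=
      fun a b hab hb => (hf_lt hσ1 hab hb θ).ne
    have h3 := h1.trans h2
    have hd : ((i : ℕ) + 2 ≤ j ∨ (j : ℕ) + 2 ≤ i) ∨ ((j : ℕ) + 2 ≤ k ∨ (k : ℕ) + 2 ≤ j) ∨
        ((i : ℕ) + 2 ≤ k ∨ (k : ℕ) + 2 ≤ i) := by omega
    rcases hd with (hd | hd) | (hd | hd) | (hd | hd)
    · exact key _ _ hd (by omega) h1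
    · exact key _ _ hd (by omega) h1.symm
    · exact key _ _ hd (by omega) h2
    · exact key _ _ hd (by omega) h2.symm
    · exact key _ _ hd (by omega) h3
    · exact key _ _ hd (by omega) h3.symm
  tangents_finite := by
    intro i j hij
    have hi2 := i.isLt
    have hj2 := j.isLt
    exact tangents_finite hN hσ (fun hc => hij (Fin.ext hc)) (by omega) (by omega)

lemma arr_pairBound {N : ℕ} (hN : N % 2 = 1) {σ : ℝ} {top : Finset ℤ} (hσ : TopRes σ top) :
    PairBound 4 (arr N σ) := by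
  intro i j hij
  have hi2 := i.isLt
  have hj2 := j.isLt
  exact tangents_encard hN hσ (fun hc => hij (Fin.ext hc)) (by omega) (by omega)

/-! ## Proper sub-arrangements have the same type -/

/-- The twisting angle at height `y`. -/
noncomputable def tau (k : ℕ) (y : ℝ) : ℝ := π * max 0 (min 1 (10 * (y - k) - 4.5))

lemma tau_continuous (k : ℕ) : Continuous (tau k) := by unfold tau; fun_prop

lemma tau_low {k i : ℕ} (hik : i < k) {y : ℝ} (hy : y ≤ i + √2) : tau k y = 0 := by
  have h1 : (i : ℝ) + 1 ≤ k := by exact_mod_cast hik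
  have h2 := sqrt_two_lt
  unfold tau
  rw [max_eq_left, mul_zero]
  exact (min_le_right _ _).trans (by linarith)

lemma tau_high {k i : ℕ} (hik : k < i) {y : ℝ} (hy : i + 1 - √2 ≤ y) : tau k y = π := by
  have h1 : (k : ℝ) + 1 ≤ i := by exact_mod_cast hik
  have h2 := sqrt_two_lt
  unfold tau
  rw [min_eq_left (by linarith), max_eq_right zero_le_one, mul_one]

/-- The twist of the cylinder near the height `k + 1/2`. -/
noncomputable def twist (k : ℕ) : (Real.Angle × ℝ) ≃ₜ (Real.Angle × ℝ) where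
  toFun p := (p.1 + (tau k p.2 : ℝ), p.2)
  invFun p := (p.1 - (tau k p.2 : ℝ), p.2)
  left_inv p := by simp
  right_inv p := by simp
  continuous_toFun := by
    refine Continuous.prodMk (continuous_fst.add ?_) continuous_snd
    exact Real.Angle.continuous_coe.comp ((tau_continuous k).comp continuous_snd)
  continuous_invFun := by
    refine Continuous.prodMk (continuous_fst.sub ?_) continuous_snd
    exact Real.Angle.continuous_coe.comp ((tau_continuous k).comp continuous_snd)

lemma twist_admissible (k : ℕ) : Admissible (twist k) := by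
  refine ⟨⟨1, fun y hy θ => ?_⟩, fun x => x + tau k 0, by fun_prop, fun x => ?_, fun x => by ring⟩
  · change 0 < y
    linarith
  · change _ = (x : Real.Angle) + (tau k 0 : ℝ)
    push_cast
    rfl

lemma hf_shift {N i : ℕ} (hi : 1 ≤ i) (θ : Real.Angle) :
    hf N (-1) i (θ - (π : ℝ)) = hf N 1 i θ := by
  have h0 : i ≠ 0 := by omega
  unfold hf
  rw [if_neg h0, if_neg h0]
  simp only [Real.Angle.cos_sub_pi, Real.Angle.sin_sub_pi, abs_neg]
  split_ifs
  · ring
  · rfl
  · rfl

lemma hf_same {N i : ℕ} (hi : i ≤ N) (θ : Real.Angle) : hf N (-1) i θ = hf N 1 i θ := by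
  unfold hf
  rw [if_neg (show ¬ i = N + 1 by omega), if_neg (show ¬ i = N + 1 by omega)]

lemma twist_curve {N k i : ℕ} (hk : k ≤ N + 1) (hi : i ≤ N + 1) (hik : i ≠ k) :
    twist k '' curve (body N (-1) i) = curve (body N 1 i) := by
  rw [Homeomorph.image_eq_preimage_symm]
  ext ⟨θ, y⟩
  rw [Set.mem_preimage]
  change y = supp (body N (-1) i) (θ - (tau k y : ℝ)) ↔ y = supp (body N 1 i) θ
  rw [supp_body, supp_body]
  rcases lt_or_gt_of_ne hik with h | h
  · have hiN : i ≤ N := by omega
    constructor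
    · intro hy
      have h1 : tau k y = 0 := tau_low h (by rw [hy]; exact hf_le _ hiN _)
      rw [h1, Real.Angle.coe_zero, sub_zero, hf_same hiN] at hy
      exact hy
    · intro hy
      have h1 : tau k y = 0 := tau_low h (by rw [hy]; exact hf_le _ hiN _)
      rw [h1, Real.Angle.coe_zero, sub_zero, hf_same hiN]
      exact hy
  · have hi1 : 1 ≤ i := by omega
    constructor
    · intro hy
      have h1 : tau k y = π := tau_high h (by
        have := hf_ge (N := N) (σ := -1) (by norm_num) hi1 (θ - (tau k y : ℝ))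
        rw [← hy] at this
        exact this)
      rw [h1, hf_shift hi1] at hy
      exact hy
    · intro hy
      have h1 : tau k y = π := tau_high h (by
        have := hf_ge (N := N) (σ := 1) (by norm_num) hi1 θ
        rw [← hy] at this
        exact this)
      rw [h1, hf_shift hi1]
      exact hy

/-! ## The two arrangements have different types -/

lemma hf_continuous (N : ℕ) (σ : ℝ) (i : ℕ) : Continuous (hf N σ i) := by
  have hc := Real.Angle.continuous_cos
  have hs := Real.Angle.continuous_sin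
  unfold hf
  split_ifs <;> fun_prop

lemma not_sameType {N : ℕ} (hN : N % 2 = 1) (hN3 : 3 ≤ N) : ¬ SameType (arr N (-1)) (arr N 1) := by
  rintro ⟨φ, ⟨-, F, hFc, hF, hFper⟩, hφ⟩
  have hcov : IsCoveringMap ((↑) : ℝ → Real.Angle) := AddCircle.isCoveringMap_coe (2 * π)
  -- the lift of the first coordinate
  let f : C(ℝ × ℝ, Real.Angle) := ⟨fun q => (φ ((q.1 : Real.Angle), q.2)).1, by
    refine continuous_fst.comp (φ.continuous.comp ?_)
    exact (Real.Angle.continuous_coe.comp continuous_fst).prodMk continuous_snd⟩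
  obtain ⟨Φ, ⟨hΦ0, hΦ⟩, -⟩ := hcov.existsUnique_continuousMap_lifts f (0, 0) (F 0) (hF 0)
  have hΦ' : ∀ x y : ℝ, ((Φ (x, y) : ℝ) : Real.Angle) = (φ ((x : Real.Angle), y)).1 :=
    fun x y => congrFun hΦ (x, y)
  have hΦF : ∀ x, Φ (x, 0) = F x := by
    have h1 : (fun x : ℝ => Φ (x, 0)) = F := by
      refine hcov.eq_of_comp_eq ?_ hFc ?_ 0 hΦ0
      · exact Φ.continuous.comp (by fun_prop)
      · funext x
        change ((Φ (x, 0) : ℝ) : Real.Angle) = ((F x : ℝ) : Real.Angle)
        rw [hΦ', hF]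
    exact fun x => congrFun h1 x
  have h2pi : ∀ x : ℝ, ((x + 2 * π : ℝ) : Real.Angle) = (x : Real.Angle) := by
    intro x
    rw [Real.Angle.coe_add, Real.Angle.coe_two_pi, add_zero]
  have hΦper : ∀ x y, Φ (x + 2 * π, y) = Φ (x, y) + 2 * π := by
    have h1 : (fun q : ℝ × ℝ => Φ (q.1 + 2 * π, q.2) - 2 * π) = fun q => Φ q := by
      refine hcov.eq_of_comp_eq ?_ Φ.continuous ?_ (0, 0) ?_
      · exact (Φ.continuous.comp (by fun_prop)).sub continuous_const
      · funext q
        change ((Φ (q.1 + 2 * π, q.2) - 2 * π : ℝ) : Real.Angle) = ((Φ (q.1, q.2) : ℝ) : Real.Angle)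
        rw [Real.Angle.coe_sub, Real.Angle.coe_two_pi, sub_zero, hΦ', hΦ', h2pi]
      · change Φ (0 + 2 * π, 0) - 2 * π = Φ (0, 0)
        rw [hΦF, hΦF, hFper]; ring
    intro x y
    have := congrFun h1 (x, y)
    simp only at this
    linarith
  have hΦZ : ∀ (n : ℤ) (x y : ℝ), Φ (x + 2 * π * n, y) = Φ (x, y) + 2 * π * n := by
    intro n x y
    induction n using Int.induction_on with
    | zero => simp
    | succ n ih =>
      have h1 : x + 2 * π * ((n : ℤ) + 1 : ℤ) = (x + 2 * π * (n : ℤ)) + 2 * π := by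
        push_cast; ring
      rw [h1, hΦper, ih]; push_cast; ring
    | pred n ih =>
      have h1 := hΦper (x + 2 * π * ((-(n : ℤ) - 1 : ℤ) : ℝ)) y
      have h2 : x + 2 * π * ((-(n : ℤ) - 1 : ℤ) : ℝ) + 2 * π = x + 2 * π * ((-(n : ℤ) : ℤ) : ℝ) := by
        push_cast; ring
      rw [h2, ih] at h1
      have h3 : Φ (x + 2 * π * ((-(n : ℤ) - 1 : ℤ) : ℝ), y) =
        Φ (x, y) + 2 * π * ((-(n : ℤ) : ℤ) : ℝ) - 2 * π := by linarith
      rw [h3]; push_cast; ring
  -- the images of the curves
  have himg : ∀ i, i ≤ N + 1 → ∀ θ : Real.Angle,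
      (φ (θ, hf N (-1) i θ)).2 = hf N 1 i (φ (θ, hf N (-1) i θ)).1 := by
    intro i hi θ
    have h1 : φ (θ, hf N (-1) i θ) ∈ curve (body N 1 i) := by
      have h2 := hφ ⟨i, by omega⟩
      have h3 : (θ, hf N (-1) i θ) ∈ curve (arr N (-1) ⟨i, by omega⟩) := by
        change hf N (-1) i θ = supp (body N (-1) i) θ
        rw [supp_body]
      have h4 := Set.mem_image_of_mem φ h3
      rw [h2] at h4
      exact h4
    have h2 : (φ (θ, hf N (-1) i θ)).2 = supp (body N 1 i) (φ (θ, hf N (-1) i θ)).1 := h1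
    rwa [supp_body] at h2
  let g : ℕ → ℝ → ℝ := fun i x => Φ (x, hf N (-1) i (x : Real.Angle))
  have hgc : ∀ i, Continuous (g i) := by
    intro i
    exact Φ.continuous.comp (continuous_id.prodMk
      ((hf_continuous N (-1) i).comp Real.Angle.continuous_coe))
  have hgper : ∀ i x, g i (x + 2 * π) = g i x + 2 * π := by
    intro i x
    simp only [g]
    rw [h2pi, hΦper]
  have hginj : ∀ i, i ≤ N + 1 → Function.Injective (g i) := by
    intro i hi x x' hxx
    have h1 : (φ ((x : Real.Angle), hf N (-1) i (x : Real.Angle))).1 =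
        (φ ((x' : Real.Angle), hf N (-1) i (x' : Real.Angle))).1 := by
      rw [← hΦ', ← hΦ']
      exact congrArg _ hxx
    have h2 : φ ((x : Real.Angle), hf N (-1) i (x : Real.Angle)) =
        φ ((x' : Real.Angle), hf N (-1) i (x' : Real.Angle)) := by
      apply Prod.ext h1
      rw [himg i hi, himg i hi, h1]
    have h3 : (x : Real.Angle) = x' := congrArg Prod.fst (φ.injective h2)
    obtain ⟨n, hn⟩ := Real.Angle.angle_eq_iff_two_pi_dvd_sub.1 h3
    have h4 : x = x' + 2 * π * n := by linarith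
    have h5 : g i x = g i x' + 2 * π * n := by
      simp only [g]
      rw [h3, h4, hΦZ]
    rw [hxx] at h5
    have h6 : 2 * π * (n : ℝ) = 0 := by linarith
    rw [h4, h6, add_zero]
  have hgmono : ∀ i, i ≤ N + 1 → StrictMono (g i) := by
    intro i hi
    rcases (hgc i).strictMono_of_inj (hginj i hi) with h | h
    · exact h
    · exfalso
      have h1 := h (show (0 : ℝ) < 0 + 2 * π by linarith [Real.pi_pos])
      rw [hgper] at h1
      linarith [Real.pi_pos]
  -- rescaling
  have hpi := Real.pi_pos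
  apply core hN hN3 (fun i x => g i (x * (π / 12)) / (π / 12))
  · intro i hi x y hxy
    exact div_lt_div_of_pos_right (hgmono i hi (mul_lt_mul_of_pos_right hxy (by positivity)))
      (by positivity)
  · intro i hi x
    have h1 : (x + 24) * (π / 12) = x * (π / 12) + 2 * π := by ring
    rw [h1, hgper]
    field_simp
    ring
  · intro i hi t ht
    have h1 := (cross_iff hN (Or.inl ⟨rfl, rfl⟩ : TopRes (-1) {3, 21}) hi (t * (π / 12))).2
      ⟨t, rfl, ht⟩
    have h2 : g i (t * (π / 12)) = g (i + 1) (t * (π / 12)) := by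
      simp only [g]
      rw [h1]
    have h3 : hf N 1 i ((g i (t * (π / 12)) : ℝ) : Real.Angle) =
        hf N 1 (i + 1) ((g i (t * (π / 12)) : ℝ) : Real.Angle) := by
      have h4 := himg i (by omega) ((t * (π / 12) : ℝ) : Real.Angle)
      have h5 := himg (i + 1) (by omega) ((t * (π / 12) : ℝ) : Real.Angle)
      rw [← h1] at h5
      simp only [g]
      rw [hΦ', ← h4, ← h5]
    obtain ⟨u, hu, hu'⟩ := (cross_iff hN (Or.inr ⟨rfl, rfl⟩ : TopRes 1 {9, 15}) hi _).1 h3
    refine ⟨u, ?_, ?_, hu'⟩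
    · rw [hu]
      field_simp
    · rw [← h2, hu]
      field_simp

lemma PairBound.mono {ι : Type} {t t' : ℕ} (htt : t ≤ t') {A : ι → Set Plane}
    (h : PairBound t A) : PairBound t' A := fun i j hij =>
  (h i j hij).trans (by exact_mod_cast htt)

/-- **Main theorem.** For every `t ≥ 4` and every `m`, the combinatorial type of an arrangement of
convex bodies, any two of which have at most `t` common supporting tangents, is not determined by
the combinatorial types of its sub-arrangements with `m` bodies. -/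
theorem result : ∀ t : ℕ, 4 ≤ t → ∀ m : ℕ, ¬ LocallyDetermined t m := by
  intro t ht m h
  set N := 2 * m + 3 with hN
  have hN1 : N % 2 = 1 := by omega
  refine not_sameType hN1 (by omega) (h _ _ _
    (arr_isArrangement hN1 (Or.inl ⟨rfl, rfl⟩ : TopRes (-1) {3, 21}))
    (arr_isArrangement hN1 (Or.inr ⟨rfl, rfl⟩ : TopRes 1 {9, 15}))
    ((arr_pairBound hN1 (Or.inl ⟨rfl, rfl⟩ : TopRes (-1) {3, 21})).mono ht)
    ((arr_pairBound hN1 (Or.inr ⟨rfl, rfl⟩ : TopRes 1 {9, 15})).mono ht) ?_)
  intro S hS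
  -- some body is missing
  obtain ⟨k, hk⟩ : ∃ k, k ∉ S := by
    by_contra hcon
    push Not at hcon
    have h1 : S = Set.univ := Set.eq_univ_of_forall hcon
    rw [h1, Set.ncard_univ, Nat.card_eq_fintype_card, Fintype.card_fin] at hS
    omega
  refine ⟨twist k, twist_admissible k, fun i => ?_⟩
  have hk2 := k.isLt
  have hi2 := i.1.isLt
  have hik : ((i.1 : Fin (N + 2)) : ℕ) ≠ k := by
    intro hc
    exact hk (Fin.ext hc ▸ i.2)
  exact twist_curve (by omega) (by omega) hik

end Pool.Agent.Results.MP_f9fe38_co.Tower
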